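import Pool.Agent.Lib.MP_19cc1b_al.KE.Prod

/-! The case of cyclic Sylow subgroups. -/

set_option autoImplicit false

namespace Pool.Agent.Lib.MP_19cc1b_al.KE

open Subgroup
open scoped Pointwise

variable {G : Type} [Group G] {p q : ℕ}

theorem cyc_mem [Finite G] [IsCyclic G] (hp : 0 < p) {a b : G} (ha : orderOf a = p)
    (hb : orderOf b = p) : b ∈ zpowers a := by
  classical
  have := Fintype.ofFinite G
  have h1 : {x : G | x ^ p = 1}.ncard ≤ p := by
    have h2 := IsCyclic.card_pow_eq_one_le (α := G) hp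
    rwa [← Set.ncard_coe_finset, Finset.coe_filter_univ] at h2
  have h3 : (zpowers a : Set G) = {x : G | x ^ p = 1} := by
    refine Set.eq_of_subset_of_ncard_le ?_ ?_ (Set.toFinite _)
    · rintro _ ⟨i, rfl⟩
      show (a ^ i) ^ p = 1
      rw [← zpow_natCast, ← zpow_mul, mul_comm, zpow_mul, zpow_natCast, ← ha, pow_orderOf_eq_one,
        one_zpow]
    · rw [← Nat.card_coe_set_eq (zpowers a : Set G)]
      exact h1.trans (ha.symm.trans (Nat.card_zpowers a).symm).le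
  have h4 : b ∈ {x : G | x ^ p = 1} := by
    show b ^ p = 1
    rw [← hb, pow_orderOf_eq_one]
  rw [← h3] at h4
  exact h4

theorem order_conj (g x : G) : orderOf (g * x * g⁻¹) = orderOf x :=
  (SemiconjBy.conj_mk g x).orderOf_eq.symm

theorem conjZ [Finite G] [hp : Fact p.Prime] (hc : ∀ P : Sylow p G, IsCyclic P) {X : Subgroup G}
    {z w : G} (hz : z ∈ X) (hw : w ∈ X) (oz : orderOf z = p) (ow : orderOf w = p) :
    ∃ h ∈ X, h * w * h⁻¹ ∈ zpowers z := by
  have pg : ∀ y : X, orderOf (y : G) = p → IsPGroup p (zpowers y) := fun y hy =>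
    IsPGroup.of_card (n := 1) (by rw [Nat.card_zpowers, ← orderOf_coe, hy, pow_one])
  obtain ⟨P, hP⟩ := (pg ⟨z, hz⟩ oz).exists_le_sylow
  obtain ⟨Q, hQ⟩ := (pg ⟨w, hw⟩ ow).exists_le_sylow
  obtain ⟨g, hg⟩ := MulAction.exists_smul_eq X Q P
  obtain ⟨T, hT⟩ := (P.isPGroup'.map X.subtype).exists_le_sylow
  have h1 : g * ⟨w, hw⟩ * g⁻¹ ∈ P := by
    rw [← hg, mem_smul]
    have : g⁻¹ * (g * ⟨w, hw⟩ * g⁻¹) * g = ⟨w, hw⟩ := by group
    rw [this]
    exact hQ (mem_zpowers _)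
  have h2 : (g : G) * w * (g : G)⁻¹ ∈ (T : Subgroup G) := hT ⟨_, h1, rfl⟩
  have h3 : z ∈ (T : Subgroup G) := hT ⟨_, hP (mem_zpowers _), rfl⟩
  have : IsCyclic (T : Subgroup G) := hc T
  obtain ⟨i, hi⟩ := cyc_mem (G := (T : Subgroup G)) hp.out.pos (a := ⟨z, h3⟩) (b := ⟨_, h2⟩)
    (by rw [← orderOf_coe]; exact oz) (by rw [← orderOf_coe]; exact (order_conj _ _).trans ow)
  exact ⟨g, g.2, i, congrArg Subtype.val hi⟩

theorem omega_act [Finite G] [hp : Fact p.Prime] [hq : Fact q.Prime] (hne : q ≠ p) {t x : G}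
    {j k : ℕ} (ht : orderOf t = p ^ j) (hk : orderOf x = q ^ k) (hn : x * t * x⁻¹ ∈ zpowers t)
    (hx : x * t * x⁻¹ ≠ t) : ∃ z, orderOf z = p ∧ x * z * x⁻¹ ∈ zpowers z ∧ x * z * x⁻¹ ≠ z := by
  obtain ⟨m, hm⟩ := mem_powers_iff_mem_zpowers.2 hn
  have hm' : t ^ m = x * t * x⁻¹ := hm
  obtain _ | i := j
  · rw [pow_zero, orderOf_eq_one_iff] at ht
    exact absurd (by rw [ht]; group) hx
  have oz : orderOf (t ^ p ^ i) = p := by
    rw [orderOf_pow_of_dvd (pow_ne_zero i hp.out.ne_zero) (ht ▸ pow_dvd_pow p (Nat.le_succ i)), ht,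
      pow_succ, Nat.mul_div_cancel_left _ (pow_pos hp.out.pos i)]
  have e1 : x * t ^ p ^ i * x⁻¹ = (t ^ p ^ i) ^ m := by
    rw [← conj_pow, ← hm', ← pow_mul, ← pow_mul, mul_comm]
  refine ⟨t ^ p ^ i, oz, e1 ▸ pow_mem (mem_zpowers _) m, fun h => hx ?_⟩
  have h1 : m ≡ 1 [MOD p] := by
    rw [← oz, ← pow_eq_pow_iff_modEq, ← e1, h, pow_one]
  have h2 : m ^ p ^ i ≡ 1 [MOD p ^ (i + 1)] := by
    have h3 := dvd_sub_pow_of_dvd_sub (R := ℤ) (p := p) (a := (1 : ℕ)) (b := m) h1.dvd i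
    rw [Nat.modEq_iff_dvd]
    simpa using h3
  have h4 : ∀ n : ℕ, x ^ n * t * (x ^ n)⁻¹ = t ^ m ^ n := by
    intro n
    induction n with
    | zero => simp
    | succ n ih =>
      calc x ^ (n + 1) * t * (x ^ (n + 1))⁻¹ = x * (x ^ n * t * (x ^ n)⁻¹) * x⁻¹ := by group
        _ = t ^ m ^ (n + 1) := by rw [ih, ← conj_pow, ← hm', ← pow_mul, pow_succ']
  have h5 : x ^ p ^ i ∈ centralizer ({t} : Set G) := by
    have h6 := h4 (p ^ i)
    have h8 : t ^ m ^ p ^ i = t ^ 1 := pow_eq_pow_iff_modEq.2 (by rw [ht]; exact h2)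
    rw [h8, pow_one] at h6
    rw [mem_centralizer_singleton_iff]
    exact mul_inv_eq_iff_eq_mul.1 h6
  have h7 := mem_of_pow (m := p ^ i) (by
    rw [hk]; exact Nat.Coprime.pow _ _ ((Nat.coprime_primes hp.out hq.out).2 hne.symm)) h5
  rw [mem_centralizer_singleton_iff] at h7
  rw [h7, mul_inv_cancel_right]

theorem mem_norm [Finite G] {g z : G} (h : g * z * g⁻¹ ∈ zpowers z) :
    g ∈ normalizer (zpowers z : Set G) := by
  refine mem_normalizer_fintype ?_
  rintro _ ⟨i, rfl⟩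
  show g * z ^ i * g⁻¹ ∈ zpowers z
  rw [← conj_zpow]
  exact zpow_mem h i

theorem frIn_of_cyc [Finite G] [hp : Fact p.Prime] [hq : Fact q.Prime] (hne : q ≠ p)
    (hc : ∀ P : Sylow p G, IsCyclic P) {ι : Type} [Fintype ι] {H : ι → Subgroup G}
    (hpm : ∀ i j, Pm (H i) (H j)) (htop : Finset.univ.sup H = ⊤)
    (h : ∀ i j, FrIn p q (H i ⊔ H j)) : FrIn p q (⊤ : Subgroup G) := by
  classical
  intro R _ hR x _ ⟨k, hk⟩ hn r hr
  by_contra hxr
  obtain ⟨T, hT⟩ := hR.exists_le_sylow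
  have : IsCyclic (T : Subgroup G) := hc T
  obtain ⟨t, rfl⟩ := (Subgroup.isCyclic_iff_exists_zpowers_eq_top R).1 (isCyclic_of_le hT)
  obtain ⟨j, hj⟩ := IsPGroup.iff_card.1 hR
  rw [Nat.card_zpowers] at hj
  obtain ⟨z, oz, hz1, hz2⟩ := omega_act hne hj hk (hn t (mem_zpowers t)) (fun e => hxr (by
    obtain ⟨i, rfl⟩ := hr
    show x * t ^ i * x⁻¹ = t ^ i
    rw [← conj_zpow, e]))
  have h1 := (family hpm Finset.univ).2
  rw [htop, card_top] at h1
  obtain ⟨i₀, -, hi₀⟩ := (Prime.dvd_finsetProd_iff hp.out.prime _).1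
    ((oz ▸ orderOf_dvd_natCard z).trans h1)
  obtain ⟨z₀, hz₀⟩ := exists_prime_orderOf_dvd_card' p hi₀
  obtain ⟨c, -, hcz⟩ := conjZ hc (mem_top (z₀ : G)) (mem_top z) (by rw [orderOf_coe, hz₀]) oz
  obtain ⟨w, hw⟩ : ∃ w, w = c * z * c⁻¹ := ⟨_, rfl⟩
  have ow : orderOf w = p := by rw [hw, order_conj, oz]
  have hwH : w ∈ H i₀ := hw ▸ zpowers_le_of_mem z₀.2 hcz
  have hZ : IsPGroup p (zpowers w) :=
    IsPGroup.of_card (n := 1) (by rw [Nat.card_zpowers, ow, pow_one])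
  have hZH : ∀ X, zpowers w ≤ H i₀ ⊔ X := fun X => (zpowers_le_of_mem hwH).trans le_sup_left
  have comm : ∀ a b : MulAut (zpowers w), Commute a b := fun a b =>
    (IsCyclic.mulAutMulEquiv (zpowers w)).injective (by rw [map_mul, map_mul, mul_comm])
  have key : ∀ s : Finset ι, ∀ g : normalizer (zpowers w : Set G), (g : G) ∈ H i₀ ⊔ s.sup H →
      (orderOf ((zpowers w).normalizerMonoidHom g)).Coprime q := by
    intro s
    induction s using Finset.induction_on with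
    | empty =>
      intro g hg
      refine phi_coprime hq.out (h i₀ i₀) (hZH _) hZ g ?_
      simpa using hg
    | insert j s _ ih =>
      intro g hg
      have h2 : Pm (H i₀ ⊔ s.sup H) (H j) := by
        rw [← Finset.sup_insert]
        exact (family hpm _).1 j
      rw [Finset.sup_insert, sup_comm (H j), ← sup_assoc, ← SetLike.mem_coe, h2.coe_sup] at hg
      obtain ⟨a, ha', b, hb, hab⟩ := hg
      have ha : a ∈ H i₀ ⊔ s.sup H := ha'
      have hab' : a * b = g := hab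
      have h3 : (g : G) * w * (g : G)⁻¹ ∈ zpowers w :=
        (mem_normalizer_iff.1 g.2 w).1 (mem_zpowers w)
      have h4 : b * w * b⁻¹ ∈ (H i₀ ⊔ s.sup H) ⊓ (H i₀ ⊔ H j) := by
        refine mem_inf.2 ⟨?_, mul_mem (mul_mem (mem_sup_right hb) (mem_sup_left hwH))
          (inv_mem (mem_sup_right hb))⟩
        have : b * w * b⁻¹ = a⁻¹ * ((g : G) * w * (g : G)⁻¹) * a := by rw [← hab']; group
        rw [this]
        exact mul_mem (mul_mem (inv_mem ha) (hZH _ h3)) ha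
      obtain ⟨d, hd, hdw⟩ := conjZ hc (X := (H i₀ ⊔ s.sup H) ⊓ (H i₀ ⊔ H j))
        ⟨mem_sup_left hwH, mem_sup_left hwH⟩ h4 ow ((order_conj _ _).trans ow)
      have h5 : d * b ∈ normalizer (zpowers w : Set G) := mem_norm (by
        have : d * b * w * (d * b)⁻¹ = d * (b * w * b⁻¹) * d⁻¹ := by group
        rw [this]; exact hdw)
      have h6 := phi_coprime hq.out (h i₀ j) (hZH _) hZ ⟨d * b, h5⟩
        (mul_mem (mem_inf.1 hd).2 (mem_sup_right hb))
      have h7 := ih (g * (⟨d * b, h5⟩ : normalizer (zpowers w : Set G))⁻¹) (by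
        have : ((g * (⟨d * b, h5⟩ : normalizer (zpowers w : Set G))⁻¹ :
            normalizer (zpowers w : Set G)) : G) = a * d⁻¹ := by
          show (g : G) * (d * b)⁻¹ = a * d⁻¹
          rw [← hab']; group
        rw [this]
        exact mul_mem ha (inv_mem (mem_inf.1 hd).1))
      have h8 : (zpowers w).normalizerMonoidHom g =
          (zpowers w).normalizerMonoidHom (g * (⟨d * b, h5⟩ : normalizer (zpowers w : Set G))⁻¹) *
            (zpowers w).normalizerMonoidHom ⟨d * b, h5⟩ := by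
        rw [← map_mul, inv_mul_cancel_right]
      rw [h8]
      exact Nat.Coprime.coprime_dvd_left (comm _ _).orderOf_mul_dvd_mul_orderOf
        (Nat.Coprime.mul_left h7 h6)
  have h9 : c * x * c⁻¹ ∈ normalizer (zpowers w : Set G) := mem_norm (by
    obtain ⟨i, hi⟩ := hz1
    have hi' : z ^ i = x * z * x⁻¹ := hi
    refine ⟨i, ?_⟩
    show w ^ i = _
    rw [hw, conj_zpow, hi']
    group)
  have h10 := key Finset.univ ⟨_, h9⟩ (by rw [htop, sup_top_eq]; trivial)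
  have h11 : orderOf ((zpowers w).normalizerMonoidHom ⟨_, h9⟩) ∣ q ^ k := by
    refine (orderOf_map_dvd _ _).trans ?_
    rw [← orderOf_coe, order_conj, hk]
  have h12 := orderOf_eq_one_iff.1 (Nat.eq_one_of_dvd_coprimes (h10.pow_right k) dvd_rfl h11)
  have h13 := phi_conj (zpowers w) ⟨_, h9⟩ ⟨w, mem_zpowers w⟩
  rw [h12] at h13
  have h14 : w = c * x * c⁻¹ * w * (c * x * c⁻¹)⁻¹ := h13
  apply hz2
  calc x * z * x⁻¹ = c⁻¹ * (c * x * c⁻¹ * (c * z * c⁻¹) * (c * x * c⁻¹)⁻¹) * c := by group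
    _ = z := by rw [← hw, ← h14, hw]; group

end Pool.Agent.Lib.MP_19cc1b_al.KE
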