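import Mathlib

/-! The normal complement theorem of Frobenius, from the focal subgroup theorem. -/

set_option autoImplicit false

namespace Pool.Agent.Lib.MP_19cc1b_al.KE

open Subgroup

/-- Inside `X`, every `q`-element that normalises a `p`-subgroup centralises it. -/
def FrIn {G : Type} [Group G] (p q : ℕ) (X : Subgroup G) : Prop :=
  ∀ R : Subgroup G, R ≤ X → IsPGroup p R → ∀ x ∈ X, (∃ k, orderOf x = q ^ k) →
    (∀ r ∈ R, x * r * x⁻¹ ∈ R) → ∀ r ∈ R, x * r * x⁻¹ = r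

variable {G : Type} [Group G] {p q : ℕ}

theorem FrIn.mono {X Y : Subgroup G} (h : FrIn p q Y) (hXY : X ≤ Y) : FrIn p q X :=
  fun R hR hp x hx => h R (hR.trans hXY) hp x (hXY hx)

theorem FrIn.top {X : Subgroup G} (h : FrIn p q X) : FrIn p q (⊤ : Subgroup X) := by
  intro R _ hp x _ hk hn r hr
  apply Subtype.ext
  refine h (R.map X.subtype) (map_subtype_le R) (hp.map _) x x.2 (by simpa using hk) ?_ r
    ⟨r, hr, rfl⟩
  rintro _ ⟨s, hs, rfl⟩
  exact ⟨_, hn s hs, rfl⟩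

theorem order_part [Finite G] (hq : q.Prime) (x : G) :
    ∃ m k, ¬ q ∣ m ∧ orderOf (x ^ m) = q ^ k ∧ (orderOf (x ^ q ^ k)).Coprime q := by
  have h0 : orderOf x ≠ 0 := (orderOf_pos x).ne'
  obtain ⟨k, m, hm, he⟩ := Nat.exists_eq_pow_mul_and_not_dvd h0 q hq.ne_one
  have hm0 : m ≠ 0 := fun h => hm (h ▸ dvd_zero q)
  refine ⟨m, k, hm, ?_, ?_⟩
  · rw [orderOf_pow_of_dvd hm0 (he ▸ dvd_mul_left m _), he,
      Nat.mul_div_cancel _ (Nat.pos_of_ne_zero hm0)]
  · rw [orderOf_pow_of_dvd (pow_ne_zero k hq.ne_zero) (he ▸ dvd_mul_right _ m), he,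
      Nat.mul_div_cancel_left _ (pow_pos hq.pos k)]
    exact ((Nat.Prime.coprime_iff_not_dvd hq).2 hm).symm

theorem phi_conj (R : Subgroup G) (x : normalizer (R : Set G)) (r : R) :
    ((R.normalizerMonoidHom x r : R) : G) = x * r * (x : G)⁻¹ := rfl

theorem phi_coprime [Finite G] {X R : Subgroup G} (hq : q.Prime) (h : FrIn p q X) (hR : R ≤ X)
    (hp : IsPGroup p R) (x : normalizer (R : Set G)) (hx : (x : G) ∈ X) :
    (orderOf (R.normalizerMonoidHom x)).Coprime q := by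
  obtain ⟨m, k, hm, hk, -⟩ := order_part hq x
  have h1 : R.normalizerMonoidHom (x ^ m) = 1 := by
    ext r
    rw [phi_conj]
    exact h R hR hp _ (by simpa using X.pow_mem hx m) ⟨k, by rw [orderOf_coe, hk]⟩
      (fun s hs => (mem_normalizer_iff.1 (x ^ m).2 s).1 hs) r r.2
  rw [map_pow] at h1
  exact Nat.Coprime.coprime_dvd_left (orderOf_dvd_of_pow_eq_one h1)
    ((Nat.Prime.coprime_iff_not_dvd hq).2 hm).symm

theorem phi_sylow [Finite G] [hp : Fact p.Prime]
    (h : ∀ q, q.Prime → q ≠ p → FrIn p q (⊤ : Subgroup G)) {R : Subgroup G} (hR : IsPGroup p R)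
    (S : Sylow p (normalizer (R : Set G))) (n : normalizer (R : Set G)) :
    ∃ s ∈ S, R.normalizerMonoidHom s = R.normalizerMonoidHom n := by
  have hA : IsPGroup p R.normalizerMonoidHom.range := by
    rintro ⟨_, x, rfl⟩
    have h0 : orderOf (R.normalizerMonoidHom x) ≠ 0 := (orderOf_pos _).ne'
    have h1 := Nat.eq_prime_pow_of_unique_prime_dvd (p := p) h0 (fun {d} hd hdv => by
      by_contra hne
      have := phi_coprime hd (h d hd hne) le_top hR x trivial
      exact hd.one_lt.ne' (Nat.eq_one_of_dvd_coprimes this hdv dvd_rfl))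
    obtain ⟨k, hk⟩ : ∃ k, orderOf (R.normalizerMonoidHom x) = p ^ k := ⟨_, h1⟩
    refine ⟨k, Subtype.ext ?_⟩
    rw [SubmonoidClass.coe_pow, ← hk]
    exact pow_orderOf_eq_one _
  have h2 := (S.mapSurjective R.normalizerMonoidHom.rangeRestrict_surjective).is_maximal'
    (hA.to_subgroup ⊤) le_top
  have h3 : R.normalizerMonoidHom.rangeRestrict n ∈
      (S.mapSurjective R.normalizerMonoidHom.rangeRestrict_surjective : Subgroup _) := by
    rw [← h2]; trivial
  rw [Sylow.coe_mapSurjective] at h3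
  obtain ⟨s, hs, he⟩ := h3
  exact ⟨s, hs, congrArg Subtype.val he⟩

theorem mem_smul {H : Type} [Group H] (g x : H) (P : Sylow p H) :
    x ∈ g • P ↔ g⁻¹ * x * g ∈ P := by
  have : x ∈ g • P ↔ x ∈ ((g • P : Sylow p H) : Subgroup H) := Iff.rfl
  rw [this, Sylow.coe_subgroup_smul, mem_pointwise_smul_iff_inv_smul_mem]
  simp only [MulAut.smul_def, MulAut.conj_inv_apply]
  exact Iff.rfl

theorem lt_inf_normalizer [Finite G] [Fact p.Prime] {D P : Subgroup G} (hP : IsPGroup p P)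
    (h : D < P) : D < P ⊓ normalizer (D : Set G) := by
  have := hP.isNilpotent
  have h1 : D.subgroupOf P < ⊤ := by
    rw [lt_top_iff_ne_top, Ne, subgroupOf_eq_top]
    exact h.not_ge
  have h2 := Group.normalizerCondition_of_isNilpotent (G := P) _ h1
  rw [← subgroupOf_normalizer_eq h.le] at h2
  obtain ⟨x, hx, hx'⟩ := SetLike.exists_of_lt h2
  exact lt_of_le_of_ne (le_inf h.le le_normalizer) fun e => hx' (by
    have : (x : G) ∈ P ⊓ normalizer (D : Set G) := ⟨x.2, hx⟩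
    rw [← e] at this
    exact this)

theorem sylow_conj [Finite G] [hp : Fact p.Prime]
    (h : ∀ q, q.Prime → q ≠ p → FrIn p q (⊤ : Subgroup G)) (D : Subgroup G) :
    ∀ P Q : Sylow p G, D ≤ P → D ≤ Q → ∃ c ∈ centralizer (D : Set G), c • P = Q := by
  induction D using WellFoundedGT.induction with
  | ind D ih =>
  intro P Q hP hQ
  by_cases e1 : D = P
  · exact ⟨1, one_mem _, by
      rw [one_smul]; exact (Sylow.ext (P.is_maximal' Q.isPGroup' (e1 ▸ hQ))).symm⟩
  by_cases e2 : D = Q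
  · exact ⟨1, one_mem _, by
      rw [one_smul]; exact Sylow.ext (Q.is_maximal' P.isPGroup' (e2 ▸ hP))⟩
  have l1 := lt_inf_normalizer P.isPGroup' (lt_of_le_of_ne hP e1)
  have l2 := lt_inf_normalizer Q.isPGroup' (lt_of_le_of_ne hQ e2)
  have hD : IsPGroup p D := P.isPGroup'.to_le hP
  obtain ⟨R, hR⟩ := (P.isPGroup'.comap_subtype
    (K := normalizer (D : Set G))).exists_le_sylow
  obtain ⟨S, hS⟩ := (Q.isPGroup'.comap_subtype
    (K := normalizer (D : Set G))).exists_le_sylow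
  obtain ⟨n, hn⟩ := MulAction.exists_smul_eq (normalizer (D : Set G)) R S
  obtain ⟨s, hs, he⟩ := phi_sylow h hD S n
  have hc : (s⁻¹ * n) • R = S := by
    rw [mul_smul, hn]
    exact Sylow.smul_eq_iff_mem_normalizer.2 (le_normalizer (inv_mem hs))
  have hcC : ((s⁻¹ * n : normalizer (D : Set G)) : G) ∈ centralizer (D : Set G) := by
    rw [← mem_subgroupOf, ← normalizerMonoidHom_ker, MonoidHom.mem_ker, map_mul, map_inv, he,
      inv_mul_cancel]
  obtain ⟨T, hT⟩ := (R.isPGroup'.map (normalizer (D : Set G)).subtype).exists_le_sylow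
  obtain ⟨c₁, h1, h1'⟩ := ih _ l1 P T inf_le_left
    (fun x hx => hT ⟨⟨x, hx.2⟩, hR hx.1, rfl⟩)
  obtain ⟨c₂, h2, h2'⟩ := ih _ l2 (((s⁻¹ * n : normalizer (D : Set G)) : G) • T) Q
    (fun x hx => by
      have a1 : (⟨x, hx.2⟩ : normalizer (D : Set G)) ∈ (s⁻¹ * n) • R := by
        rw [hc]; exact hS hx.1
      exact (mem_smul _ _ _).2 (hT ⟨_, (mem_smul _ _ _).1 a1, rfl⟩)) inf_le_left
  refine ⟨c₂ * (((s⁻¹ * n : normalizer (D : Set G)) : G) * c₁),
    mul_mem (centralizer_le l2.le h2) (mul_mem hcC (centralizer_le l1.le h1)), ?_⟩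
  rw [mul_smul, mul_smul, h1', h2']

theorem fusion [Finite G] [hp : Fact p.Prime]
    (h : ∀ q, q.Prime → q ≠ p → FrIn p q (⊤ : Subgroup G)) (P : Sylow p G) {x g : G}
    (hx : x ∈ P) (hg : g * x * g⁻¹ ∈ P) : ∃ s ∈ P, g * x * g⁻¹ = s * x * s⁻¹ := by
  obtain ⟨c, hc, he⟩ := sylow_conj h (zpowers x) P (g⁻¹ • P) (zpowers_le_of_mem hx)
    (zpowers_le_of_mem ((mem_smul _ _ _).2 (by rw [inv_inv]; exact hg)))
  have hn : g * c ∈ normalizer ((P : Subgroup G) : Set G) :=
    Sylow.smul_eq_iff_mem_normalizer.1 (by rw [mul_smul, he, smul_inv_smul])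
  obtain ⟨s, hs, hφ⟩ := phi_sylow h P.isPGroup' (P.subtype le_normalizer) ⟨g * c, hn⟩
  refine ⟨s, hs, ?_⟩
  have h1 := congrArg (fun f : MulAut (P : Subgroup G) => ((f ⟨x, hx⟩ : (P : Subgroup G)) : G)) hφ
  simp only [phi_conj] at h1
  have h2 : x * c = c * x := mem_centralizer_iff.1 hc x (mem_zpowers x)
  rw [h1]
  calc g * x * g⁻¹ = g * (x * c) * c⁻¹ * g⁻¹ := by group
    _ = g * c * x * (g * c)⁻¹ := by rw [h2]; group

/-- The theorem of Frobenius: the elements of order prime to `p` form a subgroup. -/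
theorem frob [hp : Fact p.Prime] (n : ℕ) : ∀ (G : Type) [Group G] [Finite G], Nat.card G = n →
    (∀ q, q.Prime → q ≠ p → FrIn p q (⊤ : Subgroup G)) →
    ∃ K : Subgroup G, ∀ x, x ∈ K ↔ (orderOf x).Coprime p := by
  induction n using Nat.strong_induction_on with
  | _ n ih =>
  intro G _ _ hn h
  by_cases hd : p ∣ Nat.card G
  swap
  · exact ⟨⊤, fun x => ⟨fun _ => Nat.Coprime.coprime_dvd_left (orderOf_dvd_natCard x)
      ((Nat.Prime.coprime_iff_not_dvd hp.out).2 hd).symm, fun _ => trivial⟩⟩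
  obtain ⟨P⟩ : Nonempty (Sylow p G) := inferInstance
  have : Nontrivial (P : Subgroup G) := (nontrivial_iff_ne_bot _).2 (P.ne_bot_of_dvd_card hd)
  have := P.isPGroup'.isNilpotent
  have hf : (P : Subgroup G).focalSubgroupOf ≤ _root_.commutator (P : Subgroup G) := by
    rw [focalSubgroupOf_eq_closure, closure_le]
    rintro g ⟨x, hx, u, he⟩
    have h1 : u * x⁻¹ * u⁻¹ ∈ P := by
      have : u * x⁻¹ * u⁻¹ = x⁻¹ * g := by rw [he, commutatorElement_def]; group
      rw [this]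
      exact mul_mem (inv_mem hx) g.2
    obtain ⟨s, hs, h2⟩ := fusion h P (inv_mem hx) h1
    have h3 : g = (⟨x, hx⟩ : (P : Subgroup G)) * ⟨s, hs⟩ * ⟨x, hx⟩⁻¹ * ⟨s, hs⟩⁻¹ := by
      apply Subtype.ext
      rw [he, commutatorElement_def]
      calc x * u * x⁻¹ * u⁻¹ = x * (u * x⁻¹ * u⁻¹) := by group
        _ = x * s * x⁻¹ * s⁻¹ := by rw [h2]; group
    rw [h3, ← commutatorElement_def]
    exact commutator_mem_commutator (mem_top _) (mem_top _)
  have hlt := hf.trans_lt (Group.IsSolvable.commutator_lt_top_of_nontrivial (P : Subgroup G))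
  have hK : (P : Subgroup G).transferFocal.ker ≠ ⊤ := by
    intro e
    obtain ⟨y, -, hy⟩ := SetLike.exists_of_lt hlt
    obtain ⟨g, hg⟩ := transferFocal_surjective P (y : _ ⧸ (P : Subgroup G).focalSubgroupOf)
    have : g ∈ (P : Subgroup G).transferFocal.ker := e ▸ mem_top g
    rw [MonoidHom.mem_ker, hg, QuotientGroup.eq_one_iff] at this
    exact hy this
  have hcard : Nat.card (P : Subgroup G).transferFocal.ker < n := by
    rw [← hn]
    exact lt_of_le_of_ne (card_le_card_group _) fun e => hK (eq_top_of_card_eq _ e)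
  obtain ⟨K, hK'⟩ := ih _ hcard _ rfl fun q hq hne => ((h q hq hne).mono le_top).top
  refine ⟨K.map (Subgroup.subtype _), fun x => ⟨?_, fun hx => ?_⟩⟩
  · rintro ⟨y, hy, rfl⟩
    rw [coe_subtype, orderOf_coe]
    exact (hK' y).1 hy
  · have h1 : x ∈ (P : Subgroup G).transferFocal.ker := by
      obtain ⟨k, hk⟩ := P.isPGroup'.to_quotient (P : Subgroup G).focalSubgroupOf
        ((P : Subgroup G).transferFocal x)
      rw [MonoidHom.mem_ker, ← orderOf_eq_one_iff]
      exact Nat.eq_one_of_dvd_coprimes (hx.pow_right k) (orderOf_map_dvd _ x)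
        (orderOf_dvd_of_pow_eq_one hk)
    exact ⟨⟨x, h1⟩, (hK' _).2 (by rw [← orderOf_coe]; exact hx), rfl⟩

end Pool.Agent.Lib.MP_19cc1b_al.KE
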