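import Pool.Agent.Lib.MP_19cc1b_al.Defs
import Pool.Agent.Lib.MP_19cc1b_al.KE.Frob

/-! Schmidt subgroups and non-trivial actions of `q`-elements on `p`-subgroups. -/

set_option autoImplicit false

namespace Pool.Agent.Lib.MP_19cc1b_al.KE

open Subgroup

variable {G : Type} [Group G] {p q : ℕ}

theorem mem_of_pow {R : Subgroup G} {t : G} {m : ℕ} (hc : m.Coprime (orderOf t))
    (h : t ^ m ∈ R) : t ∈ R := by
  obtain ⟨j, hj⟩ := exists_pow_eq_self_of_coprime hc
  rw [← hj]
  exact pow_mem h j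

theorem nilp_of_one [Finite G] [hp : Fact p.Prime] (h : ∀ r, r.Prime → r ∣ Nat.card G → r = p) :
    Group.IsNilpotent G :=
  (IsPGroup.of_card (Nat.eq_prime_pow_of_unique_prime_dvd (Nat.card_pos (α := G)).ne'
    (fun {d} hd hdv => h d hd hdv))).isNilpotent

theorem schmidt_of_act [Finite G] [hp : Fact p.Prime] [hq : Fact q.Prime] (hne : q ≠ p)
    {X : Subgroup G} (h : ¬ FrIn p q X) : ∃ S : Subgroup G, S ≤ X ∧ IsSchmidtPQ p q S := by
  unfold FrIn at h
  push Not at h
  obtain ⟨R, hRX, hR, x, hx, ⟨k, hk⟩, hn, r, hr, hxr⟩ := h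
  have hxN : x ∈ normalizer (R : Set G) := mem_normalizer_fintype hn
  have hTN : R ⊔ zpowers x ≤ normalizer (R : Set G) := sup_le le_normalizer (zpowers_le_of_mem hxN)
  have hpow : ∀ t ∈ R ⊔ zpowers x, t ^ q ^ k ∈ R := by
    let π := QuotientGroup.mk' (R.subgroupOf (normalizer (R : Set G)))
    have h1 : R ⊔ zpowers x ≤
        ((zpowers (π ⟨x, hxN⟩)).comap π).map (normalizer (R : Set G)).subtype := by
      refine sup_le (fun s hs => ⟨⟨s, le_normalizer hs⟩, ?_, rfl⟩)
        (zpowers_le_of_mem ⟨⟨x, hxN⟩, mem_zpowers _, rfl⟩)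
      have : π ⟨s, le_normalizer hs⟩ = 1 := (QuotientGroup.eq_one_iff _).2 hs
      rw [SetLike.mem_coe, mem_comap, this]
      exact one_mem _
    intro t ht
    obtain ⟨u, ⟨i, hi⟩, rfl⟩ := h1 ht
    have h2 : (⟨x, hxN⟩ : normalizer (R : Set G)) ^ q ^ k = 1 :=
      Subtype.ext (by rw [← hk]; exact pow_orderOf_eq_one x)
    have h3 : π (u ^ q ^ k) = 1 := by
      rw [map_pow, ← hi, ← zpow_natCast, ← zpow_mul, mul_comm, zpow_mul, zpow_natCast, ← map_pow,
        h2, map_one, one_zpow]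
    have h4 : u ^ q ^ k ∈ R.subgroupOf (normalizer (R : Set G)) :=
      (QuotientGroup.eq_one_iff _).1 h3
    exact h4
  have hT : ¬ Group.IsNilpotent (R ⊔ zpowers x : Subgroup G) := by
    intro hT
    have hxT : x ∈ R ⊔ zpowers x := mem_sup_right (mem_zpowers x)
    have hz : IsPGroup q (zpowers (⟨x, hxT⟩ : (R ⊔ zpowers x : Subgroup G))) :=
      IsPGroup.of_card (by rw [Nat.card_zpowers, ← orderOf_coe]; exact hk)
    obtain ⟨Q, hQ⟩ := hz.exists_le_sylow
    obtain ⟨P, hP⟩ := (hR.comap_subtype (K := R ⊔ zpowers x)).exists_le_sylow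
    have a := (Group.isNilpotent_of_finite_tfae (G := (R ⊔ zpowers x : Subgroup G))).out 0 3
    have b := a.1 hT
    have c := commute_of_normal_of_disjoint _ _ (b q hq Q) (b p hp P)
      (IsPGroup.disjoint_of_ne q p hne _ _ Q.isPGroup' P.isPGroup') ⟨x, hxT⟩
      ⟨r, mem_sup_left hr⟩ (hQ (mem_zpowers _)) (hP hr)
    have d : x * r = r * x := congrArg Subtype.val c
    exact hxr (by rw [d, mul_inv_cancel_right])
  obtain ⟨S, ⟨hS, hS'⟩, hmin⟩ := exists_minimal_of_wellFoundedLT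
    (fun S : Subgroup G => S ≤ R ⊔ zpowers x ∧ ¬ Group.IsNilpotent S) ⟨_, le_rfl, hT⟩
  have hfac : ∀ s, s.Prime → s ∣ Nat.card S → s = p ∨ s = q := by
    intro s hs hdv
    have := Fact.mk hs
    obtain ⟨t, ht⟩ := exists_prime_orderOf_dvd_card' s hdv
    obtain ⟨j, hj⟩ := hR ⟨_, hpow t (hS t.2)⟩
    have h1 : (t : G) ^ (q ^ k * p ^ j) = 1 := by
      rw [pow_mul]; exact congrArg Subtype.val hj
    have h2 := orderOf_dvd_of_pow_eq_one h1
    rw [orderOf_coe, ht] at h2
    rcases (Nat.Prime.dvd_mul hs).1 h2 with h3 | h3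
    · exact Or.inr ((Nat.prime_dvd_prime_iff_eq hs hq.out).1 (hs.dvd_of_dvd_pow h3))
    · exact Or.inl ((Nat.prime_dvd_prime_iff_eq hs hp.out).1 (hs.dvd_of_dvd_pow h3))
  refine ⟨S, hS.trans (sup_le hRX (zpowers_le_of_mem hx)), ⟨hS', fun U hU => ?_⟩, ?_, ?_⟩
  · have h1 : Group.IsNilpotent (U.map S.subtype) := by
      by_contra h2
      have h3 := hmin ⟨(map_subtype_le U).trans hS, h2⟩ (map_subtype_le U)
      refine hU (eq_top_iff.2 fun y _ => ?_)
      obtain ⟨z, hz, he⟩ := h3 y.2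
      exact (Subtype.ext he : z = y) ▸ hz
    exact Group.nilpotent_of_mulEquiv (U.equivMapOfInjective S.subtype S.subtype_injective).symm
  · have h0 : Nat.card S ≠ 0 := Nat.card_pos.ne'
    ext s
    simp only [Nat.mem_primeFactors, Finset.mem_insert, Finset.mem_singleton]
    refine ⟨fun h => hfac s h.1 h.2.1, ?_⟩
    rintro (rfl | rfl)
    · refine ⟨hp.out, ?_, h0⟩
      by_contra h1
      exact hS' (nilp_of_one (p := q) fun r hr hd =>
        (hfac r hr hd).resolve_left fun e => h1 (e ▸ hd))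
    · refine ⟨hq.out, ?_, h0⟩
      by_contra h1
      exact hS' (nilp_of_one (p := p) fun r hr hd =>
        (hfac r hr hd).resolve_right fun e => h1 (e ▸ hd))
  · obtain ⟨P, hP⟩ := (hR.comap_subtype (K := S)).exists_le_sylow
    have h1 : ∀ t ∈ (P : Subgroup S), (t : G) ∈ R := by
      intro t ht
      refine mem_of_pow (m := q ^ k) ?_ (hpow t (hS t.2))
      have := P.isPGroup'.orderOf_coprime (n := q ^ k)
        (((Nat.coprime_primes hp.out hq.out).2 hne.symm).pow_right k) ⟨t, ht⟩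
      rw [← orderOf_coe, ← orderOf_coe] at this
      exact this.symm
    refine ⟨P, ⟨fun t ht g => hP ?_⟩⟩
    exact (mem_normalizer_iff.1 (hTN (hS g.2)) t).1 (h1 t ht)

theorem act_of_schmidt [Finite G] [hp : Fact p.Prime] [hq : Fact q.Prime] {S : Subgroup G}
    (h : IsSchmidtPQ p q S) : q ≠ p ∧ ¬ FrIn p q (⊤ : Subgroup G) := by
  obtain ⟨⟨hS, -⟩, hfac, P, hP⟩ := h
  have hfac' : ∀ s, s.Prime → s ∣ Nat.card S → s = p ∨ s = q := by
    intro s hs hd
    have : s ∈ (Nat.card S).primeFactors := Nat.mem_primeFactors.2 ⟨hs, hd, Nat.card_pos.ne'⟩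
    rw [hfac] at this
    simpa using this
  refine ⟨fun e => hS (nilp_of_one (p := p) fun r hr hd => (hfac' r hr hd).elim id (e ▸ id)),
    fun hF => hS ?_⟩
  have hF' := (hF.mono (le_top (a := S))).top
  have a := (Group.isNilpotent_of_finite_tfae (G := S)).out 3 0
  refine a.1 fun s hs Q => ?_
  by_cases hd : s ∣ Nat.card S
  swap
  · have : (Q : Subgroup S) = ⊥ := by
      rcases Q.isPGroup'.card_eq_or_dvd with h1 | h1
      · exact card_eq_one.1 h1
      · exact absurd (h1.trans (card_subgroup_dvd_card _)) hd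
    rw [this]
    infer_instance
  rcases hfac' s hs.out hd with rfl | rfl
  · have := P.unique_of_normal hP
    rw [Subsingleton.elim Q P]
    exact hP
  · rw [← normalizer_eq_top_iff, ← index_eq_one]
    have h1 : (Q : Subgroup S) ≤ normalizer ((Q : Subgroup S) : Set S) := le_normalizer
    have h2 : (P : Subgroup S) ≤ normalizer ((Q : Subgroup S) : Set S) := by
      intro r hr
      refine mem_normalizer_fintype fun x hx => ?_
      obtain ⟨k, hk⟩ := IsPGroup.iff_orderOf.1 Q.isPGroup' ⟨x, hx⟩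
      have h3 := hF' P le_top P.isPGroup' x trivial ⟨k, (orderOf_coe (⟨x, hx⟩ : (Q : Subgroup S))).trans hk⟩
        (fun y hy => hP.conj_mem y hy x) r hr
      have h4 : r * x * r⁻¹ = x := by
        calc r * x * r⁻¹ = x * r * x⁻¹ * x * r⁻¹ := by rw [h3]
          _ = x := by group
      rw [h4]
      exact hx
    by_contra hne
    obtain ⟨t, ht, htd⟩ := Nat.exists_prime_and_dvd hne
    rcases hfac' t ht (htd.trans (index_dvd_card _)) with rfl | rfl
    · exact P.not_dvd_index (htd.trans (index_dvd_of_le h2))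
    · exact Q.not_dvd_index (htd.trans (index_dvd_of_le h1))

end Pool.Agent.Lib.MP_19cc1b_al.KE
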