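import Pool.Agent.Lib.MP_19cc1b_al.KE.Edge

/-! Products of pairwise permutable subgroups with normal complements. -/

set_option autoImplicit false

namespace Pool.Agent.Lib.MP_19cc1b_al.KE

open Subgroup
open scoped Pointwise

variable {G : Type} [Group G] {p q : ℕ}

/-- The subgroups permute. -/
def Pm (A B : Subgroup G) : Prop := (A : Set G) * (B : Set G) = (B : Set G) * (A : Set G)

theorem Pm.coe_sup {A B : Subgroup G} (h : Pm A B) :
    ((A ⊔ B : Subgroup G) : Set G) = (A : Set G) * (B : Set G) := by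
  have sw : ∀ b ∈ B, ∀ a ∈ A, ∃ a' ∈ A, ∃ b' ∈ B, a' * b' = b * a := fun b hb a ha => by
    have : b * a ∈ (A : Set G) * (B : Set G) := h ▸ Set.mul_mem_mul hb ha
    exact this
  let M : Subgroup G :=
    { carrier := (A : Set G) * (B : Set G)
      one_mem' := ⟨1, one_mem A, 1, one_mem B, mul_one 1⟩
      mul_mem' := by
        rintro _ _ ⟨a, ha, b, hb, rfl⟩ ⟨a', ha', b', hb', rfl⟩
        obtain ⟨c, hc, d, hd, he⟩ := sw b hb a' ha'
        refine ⟨a * c, mul_mem ha hc, d * b', mul_mem hd hb', ?_⟩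
        calc a * c * (d * b') = a * (c * d) * b' := by group
          _ = a * b * (a' * b') := by rw [he]; group
      inv_mem' := by
        rintro _ ⟨a, ha, b, hb, rfl⟩
        obtain ⟨c, hc, d, hd, he⟩ := sw b⁻¹ (inv_mem hb) a⁻¹ (inv_mem ha)
        exact ⟨c, hc, d, hd, he.trans (mul_inv_rev a b).symm⟩ }
  refine Set.Subset.antisymm ?_ ?_
  · have : A ⊔ B ≤ M := sup_le (fun a ha => ⟨a, ha, 1, one_mem B, mul_one a⟩)
      (fun b hb => ⟨1, one_mem A, b, hb, one_mul b⟩)
    exact this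
  · rintro _ ⟨a, ha, b, hb, rfl⟩
    exact mul_mem (mem_sup_left ha) (mem_sup_right hb)

theorem card_prod (A B : Subgroup G) :
    Nat.card ((A : Set G) * (B : Set G) : Set G) * Nat.card (A ⊓ B : Subgroup G) =
      Nat.card A * Nat.card B := by
  have h1 := card_mul_eq_card_subgroup_mul_card_quotient B (A : Set G)
  have h2 := MulAction.index_stabilizer A ((1 : G) : G ⧸ B)
  have hs : ∀ a : A, a • ((1 : G) : G ⧸ B) = ((a : G) : G ⧸ B) := fun a =>
    congrArg (fun x : G => (x : G ⧸ B)) (mul_one (a : G))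
  have h3 : MulAction.stabilizer A ((1 : G) : G ⧸ B) = (A ⊓ B).subgroupOf A := by
    ext a
    rw [MulAction.mem_stabilizer_iff, mem_subgroupOf, hs, eq_comm, QuotientGroup.eq]
    simp
  have h4 : MulAction.orbit A ((1 : G) : G ⧸ B) = (A : Set G).image (↑) := by
    ext y
    constructor
    · rintro ⟨a, rfl⟩
      exact ⟨a, a.2, (hs a).symm⟩
    · rintro ⟨a, ha, rfl⟩
      exact ⟨⟨a, ha⟩, hs ⟨a, ha⟩⟩
  rw [h3, h4, ← Nat.card_coe_set_eq] at h2
  have h5 := card_mul_index ((A ⊓ B).subgroupOf A)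
  rw [Nat.card_congr (subgroupOfEquivOfLe (inf_le_left : A ⊓ B ≤ A)).toEquiv, h2] at h5
  rw [h1, ← h5]
  ring

theorem family {ι : Type} {L : ι → Subgroup G} (h : ∀ i j, Pm (L i) (L j)) (s : Finset ι) :
    (∀ j, Pm (s.sup L) (L j)) ∧ Nat.card (s.sup L : Subgroup G) ∣ ∏ i ∈ s, Nat.card (L i) := by
  classical
  induction s using Finset.induction_on with
  | empty =>
    refine ⟨fun j => ?_, by simp⟩
    simp only [Pm, Finset.sup_empty, coe_bot]
    ext x
    simp
  | insert i s hi ih =>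
    have h1 : Pm (L i) (s.sup L) := (ih.1 i).symm
    rw [Finset.sup_insert, Finset.prod_insert hi]
    refine ⟨fun j => ?_, ?_⟩
    · unfold Pm
      rw [h1.coe_sup, mul_assoc, ih.1 j, ← mul_assoc, h i j, mul_assoc]
    · have h2 := card_prod (L i) (s.sup L)
      rw [← h1.coe_sup] at h2
      exact (Dvd.intro _ h2).trans (Nat.mul_dvd_mul_left _ ih.2)

/-- `K` is the set of elements of `X` of order prime to `p`. -/
def PN (p : ℕ) (X K : Subgroup G) : Prop := ∀ x, x ∈ K ↔ x ∈ X ∧ (orderOf x).Coprime p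

theorem PN.le {X K : Subgroup G} (h : PN p X K) : K ≤ X := fun x hx => ((h x).1 hx).1

theorem PN.inf {X Y K : Subgroup G} (h : PN p X K) (hY : Y ≤ X) : PN p Y (K ⊓ Y) := fun x =>
  ⟨fun hx => ⟨hx.2, ((h x).1 hx.1).2⟩, fun hx => ⟨(h x).2 ⟨hY hx.1, hx.2⟩, hx.1⟩⟩

theorem PN.conj {X K : Subgroup G} (h : PN p X K) {g x : G} (hg : g ∈ X) (hx : x ∈ K) :
    g * x * g⁻¹ ∈ K := by
  refine (h _).2 ⟨mul_mem (mul_mem hg (h.le hx)) (inv_mem hg), ?_⟩
  rw [← (show SemiconjBy g x (g * x * g⁻¹) from SemiconjBy.conj_mk g x).orderOf_eq]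
  exact ((h x).1 hx).2

theorem coprime_card [Finite G] [hp : Fact p.Prime] {K : Subgroup G}
    (h : ∀ x ∈ K, (orderOf x).Coprime p) : (Nat.card K).Coprime p := by
  refine ((Nat.Prime.coprime_iff_not_dvd hp.out).2 fun hd => ?_).symm
  obtain ⟨t, ht⟩ := exists_prime_orderOf_dvd_card' p hd
  have := h t t.2
  rw [orderOf_coe, ht, Nat.coprime_self] at this
  exact hp.out.one_lt.ne' this

theorem PN.card [Finite G] [hp : Fact p.Prime] {X K : Subgroup G} (h : PN p X K) :
    (Nat.card K).Coprime p ∧ ∃ s, Nat.card X = Nat.card K * p ^ s := by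
  refine ⟨coprime_card fun x hx => ((h x).1 hx).2, ?_⟩
  have h1 := card_mul_index (K.subgroupOf X)
  rw [Nat.card_congr (subgroupOfEquivOfLe h.le).toEquiv] at h1
  have h2 := Nat.eq_prime_pow_of_unique_prime_dvd (p := p)
    (FiniteIndex.index_ne_zero (H := K.subgroupOf X)) (fun {d} hd hdv => by
      by_contra hne
      have := Fact.mk hd
      obtain ⟨Q⟩ : Nonempty (Sylow d X) := inferInstance
      refine Q.not_dvd_index (hdv.trans (index_dvd_of_le fun x hx => (h x).2 ⟨x.2, ?_⟩))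
      have := Q.isPGroup'.orderOf_coprime (n := p) ((Nat.coprime_primes hd hp.out).2 hne) ⟨x, hx⟩
      rwa [← orderOf_coe, ← orderOf_coe] at this)
  exact ⟨_, by rw [← h1, ← h2]⟩

theorem PN.mul [Finite G] [hp : Fact p.Prime] {A B K : Subgroup G} (hAB : Pm A B)
    (h : PN p (A ⊔ B) K) :
    (K : Set G) = ((K ⊓ A : Subgroup G) : Set G) * ((K ⊓ B : Subgroup G) : Set G) := by
  obtain ⟨c0, s0, e0⟩ := h.card
  obtain ⟨c1, s1, e1⟩ := (h.inf le_sup_left).card
  obtain ⟨c2, s2, e2⟩ := (h.inf le_sup_right).card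
  obtain ⟨c3, s3, e3⟩ := (h.inf (inf_le_left.trans le_sup_left : A ⊓ B ≤ A ⊔ B)).card
  have h1 := card_prod A B
  rw [← hAB.coe_sup] at h1
  have h1' : Nat.card (A ⊔ B : Subgroup G) * Nat.card (A ⊓ B : Subgroup G) =
      Nat.card A * Nat.card B := h1
  have h2 := card_prod (K ⊓ A) (K ⊓ B)
  rw [← inf_inf_distrib_left] at h2
  rw [e0, e3, e1, e2] at h1'
  have h3 : Nat.card K * Nat.card (K ⊓ (A ⊓ B) : Subgroup G) ∣
      Nat.card (K ⊓ A : Subgroup G) * Nat.card (K ⊓ B : Subgroup G) := by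
    refine ((Nat.Coprime.mul_left c0 c3).pow_right (s1 + s2)).dvd_of_dvd_mul_right
      ⟨p ^ (s0 + s3), ?_⟩
    rw [pow_add, pow_add]
    linarith
  rw [← h2] at h3
  have h4 := Nat.le_of_dvd ?_ (Nat.dvd_of_mul_dvd_mul_right Nat.card_pos h3)
  · symm
    refine Set.eq_of_subset_of_ncard_le ?_ ?_ (Set.toFinite _)
    · rintro _ ⟨a, ha, b, hb, rfl⟩
      exact mul_mem ha.1 hb.1
    · rw [← Nat.card_coe_set_eq, ← Nat.card_coe_set_eq]
      exact h4
  · have : Nonempty (((K ⊓ A : Subgroup G) : Set G) * ((K ⊓ B : Subgroup G) : Set G) : Set G) :=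
      ⟨⟨1, 1, one_mem _, 1, one_mem _, mul_one 1⟩⟩
    exact Nat.card_pos

/-- If all products of two factors have a normal `p`-complement, so does the whole product. -/
theorem frIn_of_pn [Finite G] [hp : Fact p.Prime] [hq : Fact q.Prime] (hne : q ≠ p) {ι : Type}
    [Fintype ι] {H : ι → Subgroup G} (hpm : ∀ i j, Pm (H i) (H j))
    (htop : Finset.univ.sup H = ⊤) (h : ∀ i j, ∃ K, PN p (H i ⊔ H j) K) :
    FrIn p q (⊤ : Subgroup G) := by
  choose K hK using h
  let L : ι → Subgroup G := fun i => K i i ⊓ H i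
  have hL : ∀ i, PN p (H i) (L i) := fun i => (hK i i).inf le_sup_left
  have uniq : ∀ {X A B : Subgroup G}, PN p X A → PN p X B → A = B := fun ha hb =>
    Subgroup.ext fun x => (ha x).trans (hb x).symm
  have hmul : ∀ i j, (K i j : Set G) = (L i : Set G) * (L j : Set G) := fun i j => by
    rw [(hK i j).mul (hpm i j), uniq ((hK i j).inf le_sup_left) (hL i),
      uniq ((hK i j).inf le_sup_right) (hL j)]
  have hLpm : ∀ i j, Pm (L i) (L j) := fun i j => by
    unfold Pm
    rw [← hmul, ← hmul, uniq (hK i j) (sup_comm (H j) (H i) ▸ hK j i)]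
  obtain ⟨M, hM⟩ : ∃ M, M = Finset.univ.sup L := ⟨_, rfl⟩
  have hLM : ∀ i, L i ≤ M := fun i => hM ▸ Finset.le_sup (f := L) (Finset.mem_univ i)
  have hMc : (Nat.card M).Coprime p := by
    rw [hM]
    exact Nat.Coprime.coprime_dvd_left (family hLpm Finset.univ).2
      (Nat.Coprime.prod_left fun i _ => (hL i).card.1)
  have hMn : M.Normal := by
    rw [← normalizer_eq_top_iff, eq_top_iff, ← htop]
    refine Finset.sup_le fun i _ g hg => mem_normalizer_fintype fun x hx => ?_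
    have h1 : M ≤ M.comap (MulAut.conj g).toMonoidHom := by
      conv_lhs => rw [hM]
      refine Finset.sup_le fun j _ y hy => ?_
      have h2 : g * y * g⁻¹ ∈ (K i j : Set G) :=
        (hK i j).conj (mem_sup_left hg)
          ((hK i j y).2 ⟨mem_sup_right ((hL j).le hy), ((hL j y).1 hy).2⟩)
      rw [hmul] at h2
      obtain ⟨a, ha, b, hb, he⟩ := h2
      have h3 : g * y * g⁻¹ ∈ M := he ▸ mul_mem (hLM i ha) (hLM j hb)
      exact h3
    exact h1 hx
  have hQ : IsPGroup p (G ⧸ M) := by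
    have h1 : ∀ i j, Pm ((H i).map (QuotientGroup.mk' M)) ((H j).map (QuotientGroup.mk' M)) := by
      intro i j
      unfold Pm
      rw [coe_map, coe_map, ← Set.image_mul, ← Set.image_mul, hpm i j]
    have h2 : Finset.univ.sup (fun i => (H i).map (QuotientGroup.mk' M)) = ⊤ := by
      rw [eq_top_iff, ← map_top_of_surjective _ (QuotientGroup.mk'_surjective M), ← htop,
        map_le_iff_le_comap]
      exact Finset.sup_le fun i _ => map_le_iff_le_comap.1
        (Finset.le_sup (f := fun i => (H i).map (QuotientGroup.mk' M)) (Finset.mem_univ i))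
    have h3 : ∀ i, ∃ s, Nat.card ((H i).map (QuotientGroup.mk' M)) = p ^ s := by
      intro i
      refine IsPGroup.iff_card.1 ?_
      rintro ⟨_, x, hx, rfl⟩
      obtain ⟨-, k, -, -, hk⟩ := order_part hp.out x
      refine ⟨k, Subtype.ext ?_⟩
      rw [SubmonoidClass.coe_pow, ← map_pow]
      exact (QuotientGroup.eq_one_iff _).2 (hLM i ((hL i _).2 ⟨pow_mem hx _, hk⟩))
    choose s hs using h3
    have h4 := (family h1 Finset.univ).2
    simp only [hs] at h4
    rw [h2, card_top, Finset.prod_pow_eq_pow_sum] at h4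
    exact IsPGroup.of_card_dvd_pow h4
  intro R _ hR x _ ⟨k, hk⟩ hn r hr
  have hx : x ∈ M := by
    obtain ⟨j, hj⟩ := hQ (QuotientGroup.mk' M x)
    rw [← map_pow] at hj
    refine mem_of_pow (m := p ^ j) ?_ ((QuotientGroup.eq_one_iff _).1 hj)
    rw [hk]
    exact Nat.Coprime.pow _ _ ((Nat.coprime_primes hp.out hq.out).2 hne.symm)
  have h1 : x * r * x⁻¹ * r⁻¹ ∈ R := mul_mem (hn r hr) (inv_mem hr)
  have h2 : x * r * x⁻¹ * r⁻¹ ∈ M := by
    have := mul_mem hx (hMn.conj_mem _ (inv_mem hx) r)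
    simpa only [mul_assoc] using this
  obtain ⟨j, hj⟩ := hR ⟨_, h1⟩
  have h3 : orderOf (x * r * x⁻¹ * r⁻¹) = 1 :=
    Nat.eq_one_of_dvd_coprimes (hMc.pow_right j) (orderOf_dvd_natCard M h2)
      (orderOf_dvd_of_pow_eq_one (congrArg Subtype.val hj))
  exact mul_inv_eq_one.1 (orderOf_eq_one_iff.1 h3)

end Pool.Agent.Lib.MP_19cc1b_al.KE
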